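import Pool.Agent.Y782.WU.Stm

/-!
# Project WU: dictionary between spanning trees of a component and of the finite multigraph
-/

set_option autoImplicit false

namespace Pool.Agent.Y46.WU

open Pool.Agent.Y782.WU

section graph
variable {V : Type}

/-- all edges of `t` are inside `C` -/
def Ins (t : SimpleGraph V) (C : Finset V) : Prop := ∀ a b, t.Adj a b → a ∈ C

lemma reach_mem {t : SimpleGraph V} {C : Finset V} (hin : Ins t C) {a b : V} (ha : a ∈ C)
    (h : t.Reachable a b) :
    ∃ hb : b ∈ C, (t.induce (C : Set V)).Reachable ⟨a, ha⟩ ⟨b, hb⟩ := by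
  rw [SimpleGraph.reachable_iff_reflTransGen] at h
  induction h with
  | refl => exact ⟨ha, SimpleGraph.Reachable.refl _⟩
  | tail _ hbc ih =>
    obtain ⟨hb, hr⟩ := ih
    have hc := hin _ _ hbc.symm
    exact ⟨hc, hr.trans (SimpleGraph.Adj.reachable (by simpa using hbc))⟩

lemma acyclic_of_induce {t : SimpleGraph V} {C : Finset V} (hin : Ins t C)
    (h : (t.induce (C : Set V)).IsAcyclic) : t.IsAcyclic := by
  classical
  intro v c hc
  have hv : v ∈ C := hin _ _ (c.adj_snd hc.not_nil)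
  have hs : ∀ u ∈ c.support, u ∈ (C : Set V) := fun u hu =>
    (reach_mem hin hv (c.takeUntil u hu).reachable).1
  apply h (c.induce _ hs)
  rw [← SimpleGraph.Walk.isCycle_map_iff_of_injective
    (f := (SimpleGraph.Embedding.induce (C : Set V)).toHom) Subtype.val_injective,
    SimpleGraph.Walk.map_induce]
  exact hc

lemma card_edges {t : SimpleGraph V} {C : Finset V} (hin : Ins t C) :
    Nat.card (t.induce (C : Set V)).edgeSet = t.edgeSet.ncard := by
  have h1 : t.edgeSet = Sym2.map Subtype.val '' (t.induce (C : Set V)).edgeSet := by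
    ext e
    induction e using Sym2.ind with
    | _ a b =>
      simp only [SimpleGraph.mem_edgeSet, Set.mem_image]
      constructor
      · intro h
        exact ⟨s(⟨a, hin _ _ h⟩, ⟨b, hin _ _ h.symm⟩), by simpa using h, by simp⟩
      · rintro ⟨e', he', he⟩
        induction e' using Sym2.ind with
        | _ a' b' =>
          have h2 : t.Adj a'.1 b'.1 := by simpa using he'
          rw [Sym2.map_mk] at he
          rw [← SimpleGraph.mem_edgeSet] at h2 ⊢
          rw [← he]
          exact h2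
  rw [h1, Set.ncard_image_of_injective _ (Sym2.map.injective Subtype.val_injective),
    Nat.card_coe_set_eq]

/-- the number of edges of a spanning tree -/
lemma tree_count {t : SimpleGraph V} {C : Finset V} {x : V} (hin : Ins t C) (hx : x ∈ C)
    (hc : ∀ a ∈ C, t.Reachable x a) : t.IsAcyclic ↔ t.edgeSet.ncard + 1 = C.card := by
  have hconn : (t.induce (C : Set V)).Connected := by
    have : Nonempty (C : Set V) := ⟨⟨x, hx⟩⟩
    refine ⟨fun a b => ?_⟩
    obtain ⟨_, h1⟩ := reach_mem hin hx (hc a.1 a.2)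
    obtain ⟨_, h2⟩ := reach_mem hin hx (hc b.1 b.2)
    exact h1.symm.trans h2
  have h1 : Nat.card (C : Set V) = C.card := by simp
  have h2 := SimpleGraph.isTree_iff_connected_and_card (G := t.induce (C : Set V))
  rw [card_edges hin, h1] at h2
  constructor
  · intro h
    exact (h2.mp ⟨hconn, h.induce _⟩).2
  · intro h
    exact acyclic_of_induce hin (h2.mpr ⟨hconn, h⟩).2

lemma edges_finite {t : SimpleGraph V} {C : Finset V} (hin : Ins t C) : t.edgeSet.Finite := by
  classical
  refine Set.Finite.subset (C.sym2.finite_toSet) ?_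
  intro e he
  induction e using Sym2.ind with
  | _ a b =>
    simp only [Finset.mem_coe, Finset.mk_mem_sym2_iff]
    exact ⟨hin _ _ he, hin _ _ (SimpleGraph.Adj.symm he)⟩

/-- `G` restricted to `C` -/
def res (G : SimpleGraph V) (C : Finset V) : SimpleGraph V where
  Adj a b := G.Adj a b ∧ a ∈ C ∧ b ∈ C
  symm := ⟨fun _ _ h => ⟨h.1.symm, h.2.2, h.2.1⟩⟩
  loopless := ⟨fun _ h => h.1.ne rfl⟩

/-- the number of edges of a forest -/
lemma forest_count {t : SimpleGraph V} {C : Finset V} {x : V} (hin : Ins t C) (hx : x ∈ C)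
    (hac : t.IsAcyclic) : t.edgeSet.ncard + 1 ≤ C.card ∧
      (t.edgeSet.ncard + 1 = C.card → ∀ a ∈ C, t.Reachable x a) := by
  have hle : t ≤ res ⊤ C := by
    intro a b h
    exact ⟨h.ne, hin _ _ h, hin _ _ h.symm⟩
  obtain ⟨F, h1, h2, h3, h4⟩ :=
    SimpleGraph.exists_isAcyclic_reachable_eq_le_of_le_of_isAcyclic hle hac
  have hF : Ins F C := fun a b h => (h2 h).2.1
  have hr : ∀ a ∈ C, F.Reachable x a := by
    intro a ha
    rw [h4]
    by_cases hxa : x = a
    · subst hxa; exact SimpleGraph.Reachable.refl _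
    · exact SimpleGraph.Adj.reachable ⟨hxa, hx, ha⟩
  have hcF := (tree_count hF hx hr).mp h3
  have hsub : t.edgeSet ⊆ F.edgeSet := SimpleGraph.edgeSet_mono h1
  have hle2 : t.edgeSet.ncard ≤ F.edgeSet.ncard := Set.ncard_le_ncard hsub (edges_finite hF)
  refine ⟨by omega, fun heq a ha => ?_⟩
  have he : t.edgeSet = F.edgeSet :=
    Set.eq_of_subset_of_ncard_le hsub (by omega) (edges_finite hF)
  have : t = F := SimpleGraph.edgeSet_inj.mp he
  rw [this]
  exact hr a ha

/-- reachability step by step -/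
lemma reach_of_adj {t t' : SimpleGraph V} (h : ∀ a b, t.Adj a b → t'.Reachable a b) {a b : V}
    (hab : t.Reachable a b) : t'.Reachable a b := by
  rw [SimpleGraph.reachable_iff_reflTransGen] at hab
  induction hab with
  | refl => exact SimpleGraph.Reachable.refl _
  | tail _ hbc ih => exact ih.trans (h _ _ hbc)

end graph

section dict
variable {V : Type} {H : SimpleGraph V} {x : V}

lemma mem_D (hf : (cls H x).Finite) (e : Sym2 V) :
    e ∈ (gC H x hf).D ↔ e ∈ H.edgeSet ∧ ∀ v ∈ e, v ∈ cls H x := by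
  unfold gC
  simp only [Finset.mem_filter, Finset.mem_sym2_iff, Set.Finite.mem_toFinset]
  tauto

lemma mem_A (hf : (cls H x).Finite) (a : V) : a ∈ (gC H x hf).A ↔ a ∈ cls H x := by
  simp [gC]

/-- the graph of a finite set of edges -/
abbrev gr (S : Finset (Sym2 V)) : SimpleGraph V := SimpleGraph.fromEdgeSet (S : Set (Sym2 V))

lemma gr_edges (hf : (cls H x).Finite) {S : Finset (Sym2 V)} (hS : S ⊆ (gC H x hf).D) :
    (gr S).edgeSet = (S : Set (Sym2 V)) := by
  rw [SimpleGraph.edgeSet_fromEdgeSet]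
  ext e
  simp only [Set.mem_sdiff, Finset.mem_coe]
  constructor
  · exact fun h => h.1
  · exact fun h => ⟨h, SimpleGraph.not_isDiag_of_mem_edgeSet _ ((mem_D hf e).mp (hS h)).1⟩

lemma gr_ins (hf : (cls H x).Finite) {S : Finset (Sym2 V)} (hS : S ⊆ (gC H x hf).D) :
    Ins (gr S) (gC H x hf).A := by
  intro a b h
  rw [SimpleGraph.fromEdgeSet_adj] at h
  exact (mem_A hf a).mpr (((mem_D hf _).mp (hS h.1)).2 a (Sym2.mem_mk_left _ _))

lemma rch_iff (hf : (cls H x).Finite) {S : Finset (Sym2 V)} (hS : S ⊆ (gC H x hf).D) (a b : V) :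
    Rch (gC H x hf) S a b ↔ (gr S).Reachable a b := by
  have hout : ∀ e : Sym2 V, s((Quot.out e).1, (Quot.out e).2) = e := fun e => Quot.out_eq e
  constructor
  · intro h
    induction h with
    | rel a b h =>
      obtain ⟨e, he, h1, h2⟩ := h
      apply SimpleGraph.Adj.reachable
      rw [SimpleGraph.fromEdgeSet_adj]
      have h3 : s(a, b) = e := by rw [← h1, ← h2]; exact hout e
      refine ⟨by rw [h3]; exact he, fun hab => ?_⟩
      have h4 := ((mem_D hf e).mp (hS he)).1
      rw [← h3, SimpleGraph.mem_edgeSet] at h4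
      exact h4.ne hab
    | refl a => exact SimpleGraph.Reachable.refl _
    | symm a b _ ih => exact ih.symm
    | trans a b c _ _ h1 h2 => exact h1.trans h2
  · intro h
    rw [SimpleGraph.reachable_iff_reflTransGen] at h
    induction h with
    | refl => exact Relation.EqvGen.refl _
    | tail _ hbc ih =>
      rename_i b c _
      refine Relation.EqvGen.trans _ _ _ ih ?_
      rw [SimpleGraph.fromEdgeSet_adj] at hbc
      have h1 := hout s(b, c)
      rw [Sym2.eq_iff] at h1
      rcases h1 with ⟨h1, h2⟩ | ⟨h1, h2⟩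
      · exact Relation.EqvGen.rel _ _ ⟨_, hbc.1, h1, h2⟩
      · exact Relation.EqvGen.symm _ _ (Relation.EqvGen.rel _ _ ⟨_, hbc.1, h1, h2⟩)

lemma x_mem (hf : (cls H x).Finite) : x ∈ (gC H x hf).A :=
  (mem_A hf x).mpr (SimpleGraph.Reachable.refl _)

lemma isST_iff (hf : (cls H x).Finite) (S : Finset (Sym2 V)) :
    IsST (gC H x hf) S ↔ S ⊆ (gC H x hf).D ∧ S.card + 1 = (gC H x hf).A.card ∧
      ∀ a ∈ (gC H x hf).A, (gr S).Reachable x a := by
  constructor
  · rintro ⟨h1, h2, h3⟩
    exact ⟨h1, h2, fun a ha => (rch_iff hf h1 x a).mp (h3 x (x_mem hf) a ha)⟩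
  · rintro ⟨h1, h2, h3⟩
    exact ⟨h1, h2, fun a ha b hb => (rch_iff hf h1 a b).mpr ((h3 a ha).symm.trans (h3 b hb))⟩

lemma mem_STs_iff (hf : (cls H x).Finite) {S : Finset (Sym2 V)} (hS : S ⊆ (gC H x hf).D) :
    gr S ∈ STs H x ↔ IsST (gC H x hf) S := by
  rw [isST_iff]
  have hin := gr_ins hf hS
  have hcard : (gr S).edgeSet.ncard = S.card := by rw [gr_edges hf hS, Set.ncard_coe_finset]
  constructor
  · rintro ⟨_, _, h3, h4⟩
    have h5 : ∀ a ∈ (gC H x hf).A, (gr S).Reachable x a := fun a ha => h4 a ((mem_A hf a).mp ha)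
    refine ⟨hS, ?_, h5⟩
    rw [← hcard]
    exact (tree_count hin (x_mem hf) h5).mp h3
  · rintro ⟨_, h2, h3⟩
    refine ⟨?_, ?_, ?_, ?_⟩
    · intro a b h
      have h4 : s(a, b) ∈ (gr S).edgeSet := h
      rw [gr_edges hf hS] at h4
      exact ((mem_D hf _).mp (hS h4)).1
    · intro a b h
      exact (mem_A hf a).mp (hin a b h)
    · rw [tree_count hin (x_mem hf) h3, hcard]
      exact h2
    · exact fun a ha => h3 a ((mem_A hf a).mpr ha)

lemma exists_S (hf : (cls H x).Finite) {t : SimpleGraph V} (ht : t ∈ STs H x) :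
    ∃ S : Finset (Sym2 V), S ⊆ (gC H x hf).D ∧ gr S = t := by
  obtain ⟨h1, h2, _, _⟩ := ht
  have hin : Ins t (gC H x hf).A := fun a b h => (mem_A hf a).mpr (h2 a b h)
  have hfin := edges_finite hin
  refine ⟨hfin.toFinset, ?_, ?_⟩
  · intro e he
    rw [Set.Finite.mem_toFinset] at he
    rw [mem_D]
    refine ⟨SimpleGraph.edgeSet_mono h1 he, ?_⟩
    induction e using Sym2.ind with
    | _ a b =>
      intro v hv
      rw [Sym2.mem_iff] at hv
      rcases hv with rfl | rfl
      · exact h2 _ _ he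
      · exact h2 _ _ (SimpleGraph.Adj.symm he)
  · show SimpleGraph.fromEdgeSet _ = t
    rw [Set.Finite.coe_toFinset, SimpleGraph.fromEdgeSet_edgeSet]

open Classical in
/-- counting -/
lemma count_eq (hf : (cls H x).Finite) (P : SimpleGraph V → Prop) (Q : Finset (Sym2 V) → Prop)
    (hPQ : ∀ S ⊆ (gC H x hf).D, (P (gr S) ↔ Q S)) :
    Set.ncard {t | t ∈ STs H x ∧ P t} = NS (gC H x hf) ∅ ∅ Q := by
  have h1 : {t | t ∈ STs H x ∧ P t} = (fun S : Finset (Sym2 V) => gr S) ''
      (((gC H x hf).D.powerset.filter (fun S : Finset (Sym2 V) =>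
        IsST (gC H x hf) S ∧ ∅ ⊆ S ∧ Disjoint S ∅ ∧ Q S) : Finset _) : Set _) := by
    ext t
    simp only [Set.mem_ofPred_eq, Set.mem_image, Finset.coe_filter, Finset.mem_powerset,
      Finset.empty_subset, Finset.disjoint_empty_right, true_and]
    constructor
    · rintro ⟨ht, hP⟩
      obtain ⟨S, hS, rfl⟩ := exists_S hf ht
      exact ⟨S, ⟨hS, (mem_STs_iff hf hS).mp ht, (hPQ S hS).mp hP⟩, rfl⟩
    · rintro ⟨S, ⟨hS, hST, hQ⟩, rfl⟩
      exact ⟨(mem_STs_iff hf hS).mpr hST, (hPQ S hS).mpr hQ⟩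
  rw [h1, Set.InjOn.ncard_image, Set.ncard_coe_finset]
  · unfold NS
    rfl
  · intro S hS S' hS' hSS
    simp only [Finset.coe_filter, Finset.mem_powerset, Set.mem_ofPred_eq] at hS hS'
    have h2 := congrArg SimpleGraph.edgeSet hSS
    simp only at h2
    rw [gr_edges hf hS.1, gr_edges hf hS'.1] at h2
    exact Finset.coe_injective h2

/-- extension of a forest in the component to a spanning tree -/
lemma extend (hf : (cls H x).Finite) {t0 : SimpleGraph V} (h0 : t0 ≤ H)
    (h1 : ∀ a b, t0.Adj a b → a ∈ cls H x) (h2 : t0.IsAcyclic) :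
    ∃ F ∈ STs H x, t0 ≤ F := by
  have hle : t0 ≤ res H (gC H x hf).A := fun a b h =>
    ⟨h0 h, (mem_A hf a).mpr (h1 _ _ h), (mem_A hf b).mpr (h1 _ _ h.symm)⟩
  obtain ⟨F, h3, h4, h5, h6⟩ :=
    SimpleGraph.exists_isAcyclic_reachable_eq_le_of_le_of_isAcyclic hle h2
  refine ⟨F, ⟨?_, ?_, h5, ?_⟩, h3⟩
  · exact fun a b h => (h4 h).1
  · exact fun a b h => (mem_A hf a).mp (h4 h).2.1
  · intro a ha
    rw [h6]
    have ha' : H.Reachable x a := ha
    rw [SimpleGraph.reachable_iff_reflTransGen] at ha'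
    induction ha' with
    | refl => exact SimpleGraph.Reachable.refl _
    | tail hb hbc ih =>
      rename_i b c
      have hb' : H.Reachable x b := by
        rw [SimpleGraph.reachable_iff_reflTransGen]; exact hb
      refine (ih hb').trans (SimpleGraph.Adj.reachable ⟨hbc, (mem_A hf b).mpr hb', ?_⟩)
      exact (mem_A hf c).mpr (hb'.trans hbc.reachable)

lemma STs_finite (hf : (cls H x).Finite) : (STs H x).Finite := by
  refine Set.Finite.subset (((gC H x hf).D.powerset.finite_toSet).image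
    (fun S : Finset (Sym2 V) => gr S)) ?_
  intro t ht
  obtain ⟨S, hS, rfl⟩ := exists_S hf ht
  exact ⟨S, by simpa using hS, rfl⟩

lemma STs_nonempty (hf : (cls H x).Finite) : (STs H x).Nonempty := by
  obtain ⟨F, hF, _⟩ := extend hf (t0 := ⊥) bot_le (fun a b h => absurd h (by simp))
    SimpleGraph.isAcyclic_bot
  exact ⟨F, hF⟩

lemma NS_pos (hf : (cls H x).Finite) : 0 < NS (gC H x hf) ∅ ∅ tr := by
  rw [← count_eq hf (fun _ => True) tr (fun _ _ => Iff.rfl)]
  rw [Set.ncard_pos ((STs_finite hf).subset (fun t ht => ht.1))]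
  obtain ⟨t, ht⟩ := STs_nonempty hf
  exact ⟨t, ht, trivial⟩

open Classical in
lemma fr_eq (hf : (cls H x).Finite) (F S : Finset (Sym2 V)) : fr H x F S =
    (NS (gC H x hf) ∅ ∅ (agr F S) : ℝ) / NS (gC H x hf) ∅ ∅ tr := by
  unfold fr
  rw [count_eq hf (fun t => ∀ e ∈ F, (e ∈ t.edgeSet ↔ e ∈ S)) (agr F S)]
  · congr 2
    rw [← count_eq hf (fun _ => True) tr (fun _ _ => Iff.rfl)]
    congr 1
    ext t
    simp
  · intro T hT
    simp only [gr_edges hf hT]
    rfl

/-- the tree inside the smaller component and the additional edges -/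
lemma main_sets {H' : SimpleGraph V} (hf : (cls H x).Finite) (hf' : (cls H' x).Finite)
    (hle : H ≤ H') : (gC H x hf).D ⊆ (gC H' x hf').D ∧
    ∃ S0 : Finset (Sym2 V), S0 ⊆ (gC H' x hf').D ∧ Disjoint S0 (gC H x hf).D ∧
      S0.card + (gC H x hf).A.card = (gC H' x hf').A.card ∧
      ∀ t, IsST (gC H x hf) t → ∀ a ∈ (gC H' x hf').A,
        (SimpleGraph.fromEdgeSet ((t : Set (Sym2 V)) ∪ S0)).Reachable x a := by
  classical
  have hcls : cls H x ⊆ cls H' x := fun a ha => SimpleGraph.Reachable.mono hle ha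
  have hD : (gC H x hf).D ⊆ (gC H' x hf').D := by
    intro e he
    rw [mem_D] at he ⊢
    exact ⟨SimpleGraph.edgeSet_mono hle he.1, fun v hv => hcls (he.2 v hv)⟩
  refine ⟨hD, ?_⟩
  obtain ⟨t0, ht0⟩ := STs_nonempty hf
  obtain ⟨F0, hF0, hle0⟩ := extend hf' (ht0.1.trans hle) (fun a b h => hcls (ht0.2.1 a b h))
    ht0.2.2.1
  obtain ⟨E0, hE0, rfl⟩ := exists_S hf ht0
  obtain ⟨T0, hT0, rfl⟩ := exists_S hf' hF0
  have hE0T0 : E0 ⊆ T0 := by
    have h1 := SimpleGraph.edgeSet_mono hle0
    rw [gr_edges hf hE0, gr_edges hf' hT0] at h1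
    exact_mod_cast h1
  have hST0 := (isST_iff hf E0).mp ((mem_STs_iff hf hE0).mp ht0)
  have hST0' := (isST_iff hf' T0).mp ((mem_STs_iff hf' hT0).mp hF0)
  have hfor : (T0 ∩ (gC H x hf).D).card + 1 ≤ (gC H x hf).A.card := by
    have hsub : T0 ∩ (gC H x hf).D ⊆ (gC H x hf).D := Finset.inter_subset_right
    have h1 : (gr (T0 ∩ (gC H x hf).D)).IsAcyclic := by
      refine SimpleGraph.IsAcyclic.anti ?_ hF0.2.2.1
      refine SimpleGraph.fromEdgeSet_mono ?_
      exact_mod_cast (Finset.inter_subset_left : T0 ∩ (gC H x hf).D ⊆ T0)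
    have h2 := (forest_count (gr_ins hf hsub) (x_mem hf) h1).1
    rw [gr_edges hf hsub, Set.ncard_coe_finset] at h2
    exact h2
  have hge : E0.card ≤ (T0 ∩ (gC H x hf).D).card :=
    Finset.card_le_card (Finset.subset_inter hE0T0 hE0)
  have hsplit : (T0 \ (gC H x hf).D).card + (T0 ∩ (gC H x hf).D).card = T0.card :=
    Finset.card_sdiff_add_card_inter _ _
  refine ⟨T0 \ (gC H x hf).D, Finset.sdiff_subset.trans hT0, Finset.sdiff_disjoint, ?_, ?_⟩
  · have h1 := hST0.2.1
    have h2 := hST0'.2.1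
    omega
  · intro t ht a ha
    have ht' := (isST_iff hf t).mp ht
    have hmono : gr t ≤ SimpleGraph.fromEdgeSet ((t : Set (Sym2 V)) ∪
        ((T0 \ (gC H x hf).D : Finset (Sym2 V)) : Set (Sym2 V))) :=
      SimpleGraph.fromEdgeSet_mono Set.subset_union_left
    refine reach_of_adj ?_ (hST0'.2.2 a ha)
    intro b c hbc
    rw [SimpleGraph.fromEdgeSet_adj] at hbc
    by_cases hbD : s(b, c) ∈ (gC H x hf).D
    · have h1 := (mem_D hf _).mp hbD
      have hb := (ht'.2.2 b ((mem_A hf b).mpr (h1.2 b (Sym2.mem_mk_left _ _)))).mono hmono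
      have hc := (ht'.2.2 c ((mem_A hf c).mpr (h1.2 c (Sym2.mem_mk_right _ _)))).mono hmono
      exact hb.symm.trans hc
    · apply SimpleGraph.Adj.reachable
      rw [SimpleGraph.fromEdgeSet_adj]
      refine ⟨Or.inr ?_, hbc.2⟩
      have h2 : s(b, c) ∈ T0 := hbc.1
      simp [h2, hbD]

open Classical in
lemma NS_eq {H' : SimpleGraph V} (hf : (cls H x).Finite) (hf' : (cls H' x).Finite)
    {S0 : Finset (Sym2 V)} (hD : (gC H x hf).D ⊆ (gC H' x hf').D)
    (h1 : S0 ⊆ (gC H' x hf').D) (h2 : Disjoint S0 (gC H x hf).D)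
    (h3 : S0.card + (gC H x hf).A.card = (gC H' x hf').A.card)
    (h4 : ∀ t, IsST (gC H x hf) t → ∀ a ∈ (gC H' x hf').A,
        (SimpleGraph.fromEdgeSet ((t : Set (Sym2 V)) ∪ S0)).Reachable x a)
    (P : Finset (Sym2 V) → Prop)
    (hP : ∀ T, P (T ∩ (gC H x hf).D) ↔ P T) :
    NS (gC H' x hf') ∅ ((gC H' x hf').D \ ((gC H x hf).D ∪ S0)) P = NS (gC H x hf) ∅ ∅ P := by
  unfold NS
  have hcap : ∀ t ⊆ (gC H x hf).D, (t ∪ S0) ∩ (gC H x hf).D = t := by
    intro t ht
    rw [Finset.union_inter_distrib_right, Finset.disjoint_iff_inter_eq_empty.mp h2,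
      Finset.union_empty, Finset.inter_eq_left.mpr ht]
  have hA : ∀ T ⊆ (gC H' x hf').D, IsST (gC H' x hf') T →
      Disjoint T ((gC H' x hf').D \ ((gC H x hf).D ∪ S0)) →
      IsST (gC H x hf) (T ∩ (gC H x hf).D) ∧ (T ∩ (gC H x hf).D) ∪ S0 = T := by
    intro T hT hST hdis
    have hsub0 : T \ (gC H x hf).D ⊆ S0 := by
      intro e he
      rw [Finset.mem_sdiff] at he
      by_contra hne
      refine (Finset.disjoint_left.mp hdis he.1) ?_
      simp [hT he.1, he.2, hne]
    have hST' := (isST_iff hf' T).mp hST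
    have hsub : T ∩ (gC H x hf).D ⊆ (gC H x hf).D := Finset.inter_subset_right
    have hac : (gr (T ∩ (gC H x hf).D)).IsAcyclic := by
      refine SimpleGraph.IsAcyclic.anti ?_ ((mem_STs_iff hf' hT).mpr hST).2.2.1
      refine SimpleGraph.fromEdgeSet_mono ?_
      exact_mod_cast (Finset.inter_subset_left : T ∩ (gC H x hf).D ⊆ T)
    have hfc := forest_count (gr_ins hf hsub) (x_mem hf) hac
    rw [gr_edges hf hsub, Set.ncard_coe_finset] at hfc
    have hsplit : (T \ (gC H x hf).D).card + (T ∩ (gC H x hf).D).card = T.card :=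
      Finset.card_sdiff_add_card_inter _ _
    have hle := Finset.card_le_card hsub0
    have hc1 := hST'.2.1
    have hc2 := hfc.1
    have heq : T \ (gC H x hf).D = S0 := Finset.eq_of_subset_of_card_le hsub0 (by omega)
    refine ⟨(isST_iff hf _).mpr ⟨hsub, by omega, hfc.2 (by omega)⟩, ?_⟩
    rw [← heq, Finset.union_comm]
    exact Finset.sdiff_union_inter _ _
  refine Finset.card_bij' (fun T _ => T ∩ (gC H x hf).D) (fun t _ => t ∪ S0) ?_ ?_ ?_ ?_
  · intro T hT
    simp only [Finset.mem_filter, Finset.mem_powerset, Finset.empty_subset, true_and,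
      Finset.disjoint_empty_right] at hT ⊢
    exact ⟨Finset.inter_subset_right, (hA T hT.1 hT.2.1 hT.2.2.1).1, (hP T).mpr hT.2.2.2⟩
  · intro t ht
    simp only [Finset.mem_filter, Finset.mem_powerset, Finset.empty_subset, true_and,
      Finset.disjoint_empty_right] at ht ⊢
    have hsub : t ∪ S0 ⊆ (gC H' x hf').D := Finset.union_subset (ht.1.trans hD) h1
    have ht' := (isST_iff hf t).mp ht.2.1
    refine ⟨hsub, ?_, ?_, ?_⟩
    · rw [isST_iff]
      refine ⟨hsub, ?_, ?_⟩
      · rw [Finset.card_union_of_disjoint]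
        · have := ht'.2.1
          omega
        · exact (h2.mono_right ht.1).symm
      · intro a ha
        have := h4 t ht.2.1 a ha
        rw [← Finset.coe_union] at this
        exact this
    · rw [Finset.disjoint_left]
      intro e he he2
      rw [Finset.mem_sdiff, Finset.mem_union] at he2
      rw [Finset.mem_union] at he
      rcases he with he | he
      · exact he2.2 (Or.inl (ht.1 he))
      · exact he2.2 (Or.inr he)
    · have := hP (t ∪ S0)
      rw [hcap t ht.1] at this
      exact this.mp ht.2.2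
  · intro T hT
    simp only [Finset.mem_filter, Finset.mem_powerset, Finset.empty_subset, true_and] at hT
    exact (hA T hT.1 hT.2.1 hT.2.2.1).2
  · intro t ht
    simp only [Finset.mem_filter, Finset.mem_powerset] at ht
    exact hcap t ht.1

end dict

/-- WU-D1 -/
theorem d1 : S_D1 := by
  classical
  intro V H x hf
  refine ⟨STs_finite hf, STs_nonempty hf, NS_pos hf, fun F S => ?_, ?_⟩
  · convert fr_eq hf F S
  · intro H' hf' hle
    obtain ⟨hD, S0, h1, h2, h3, h4⟩ := main_sets hf hf' hle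
    have key := fun P hP => NS_eq hf hf' hD h1 h2 h3 h4 P hP
    refine ⟨(gC H' x hf').D \ ((gC H x hf).D ∪ S0), ?_, ?_, ?_⟩
    · intro e he he2
      rw [Finset.mem_sdiff, Finset.mem_union] at he2
      exact he2.2 (Or.inl he)
    · have h5 := NS_pos hf
      rw [← key tr (fun _ => Iff.rfl)] at h5
      convert h5
    · intro F S hF
      have h6 : ∀ T, agr F S (T ∩ (gC H x hf).D) ↔ agr F S T := by
        intro T
        unfold agr
        refine forall₂_congr (fun e he => ?_)
        rw [Finset.mem_inter]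
        have := hF e he
        tauto
      have h7 := key (agr F S) h6
      have h8 := key tr (fun _ => Iff.rfl)
      have h9 := fr_eq hf F S
      rw [← h7, ← h8] at h9
      convert h9.symm

end Pool.Agent.Y46.WU
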